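import Mathlib

set_option autoImplicit false

namespace Pool.Agent.Results.MP_3d4fca_co.Example

/-- The `r`-ball; `edist` is infinite between different components. -/
def ball {V : Type} (G : SimpleGraph V) (r : ℕ) (v : V) : Set V := {u | G.edist u v ≤ r}

def TwinFree {V : Type} (G : SimpleGraph V) (r : ℕ) : Prop :=
  ∀ u v, ball G r u = ball G r v → u = v

def Terminal {V : Type} (G : SimpleGraph V) (r : ℕ) : Prop :=
  TwinFree G r ∧ ∀ v, ¬ TwinFree (G.induce {u | u ≠ v}) r

lemma edist_two {V : Type} (G : SimpleGraph V) (u v : V) :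
    G.edist u v ≤ (2 : ℕ) ↔ u = v ∨ G.Adj u v ∨ ∃ w, G.Adj u w ∧ G.Adj w v := by
  constructor
  · intro h
    obtain ⟨p, hp⟩ := SimpleGraph.exists_walk_of_edist_ne_top
      (ne_top_of_le_ne_top (ENat.natCast_ne_top 2) h)
    rw [← hp, Nat.cast_le] at h
    rcases p with _ | ⟨h1, _ | ⟨h2, _ | ⟨h3, p⟩⟩⟩
    · exact Or.inl rfl
    · exact Or.inr (Or.inl h1)
    · exact Or.inr (Or.inr ⟨_, h1, h2⟩)
    · simp at h
  · rintro (rfl | h | ⟨w, h1, h2⟩)
    · simp
    · exact (SimpleGraph.edist_le (.cons h .nil)).trans (by simp)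
    · exact (SimpleGraph.edist_le (.cons h1 (.cons h2 .nil))).trans (by simp)

lemma twinFree_iff {V : Type} (G : SimpleGraph V) : TwinFree G 2 ↔ ∀ u v,
    (∀ x, (x = u ∨ G.Adj x u ∨ ∃ w, G.Adj x w ∧ G.Adj w u) ↔
      (x = v ∨ G.Adj x v ∨ ∃ w, G.Adj x w ∧ G.Adj w v)) → u = v := by
  simp only [TwinFree, ball, Set.ext_iff, Set.mem_ofPred_eq, edist_two]

def EL : List (Fin 9 × Fin 9) :=
  [(0, 1), (1, 2), (2, 3), (0, 4), (3, 5), (1, 6), (2, 6), (4, 7), (6, 7), (1, 8), (3, 8), (5, 8)]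

def G0 : SimpleGraph (Fin 9) where
  Adj x y := (x, y) ∈ EL ∨ (y, x) ∈ EL
  symm := ⟨fun _ _ h => h.symm⟩
  loopless := ⟨by decide +kernel⟩

instance : DecidableRel G0.Adj := fun x y =>
  inferInstanceAs (Decidable ((x, y) ∈ EL ∨ (y, x) ∈ EL))

instance (v : Fin 9) : DecidableRel (G0.induce {u | u ≠ v}).Adj := fun x y =>
  inferInstanceAs (Decidable (G0.Adj x.1 y.1))

set_option synthInstance.maxSize 4000 in
theorem result :
    ∃ (V : Type) (_ : Fintype V) (G : SimpleGraph V), G.Connected ∧ Terminal G 2 ∧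
      IsEmpty (G ≃g SimpleGraph.pathGraph 5) := by
  refine ⟨Fin 9, inferInstance, G0, ?_, ⟨?_, ?_⟩, ⟨fun e => ?_⟩⟩
  · have h : ∀ v, G0.Reachable 1 v := by
      have a : ∀ u v, G0.Adj u v → G0.Reachable u v := fun _ _ h => h.reachable
      intro v
      fin_cases v
      · exact a 1 0 (by decide)
      · rfl
      · exact a 1 2 (by decide)
      · exact (a 1 2 (by decide)).trans (a 2 3 (by decide))
      · exact (a 1 0 (by decide)).trans (a 0 4 (by decide))
      · exact (a 1 8 (by decide)).trans (a 8 5 (by decide))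
      · exact a 1 6 (by decide)
      · exact (a 1 6 (by decide)).trans (a 6 7 (by decide))
      · exact a 1 8 (by decide)
    exact ⟨fun u v => (h u).symm.trans (h v)⟩
  · rw [twinFree_iff]; decide +kernel
  · simp only [twinFree_iff]; decide +kernel
  · simpa using Fintype.card_congr e.toEquiv

end Pool.Agent.Results.MP_3d4fca_co.Example
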